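import Mathlib

/-!
# APM54: the charging lemma
-/

set_option autoImplicit false

namespace Pool.Agent.APM54

open Finset

/-- Triples `(i, j, k)` are charged to wires: every wire, with a coordinate at each end, gets at
most one triple. -/
theorem core {s w : ℕ} {In R J K : Type} [DecidableEq In] [DecidableEq R] [DecidableEq J]
    [DecidableEq K]
    (reads : Fin s → Finset (In ⊕ Fin s))
    (earlier : ∀ t u, Sum.inr u ∈ reads t → u < t)
    (𝒯 : Finset (R × J × K))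
    (serves : (In ⊕ Fin s) → Fin w → (R × J × K) → Prop)
    (hgate : ∀ t c τ, τ ∈ 𝒯 → serves (Sum.inr t) c τ → ∃ y ∈ reads t, ∃ c', serves y c' τ)
    (hin : ∀ e c τ σ, τ ∈ 𝒯 → σ ∈ 𝒯 → serves (Sum.inl e) c τ → serves (Sum.inl e) c σ →
      τ.1 = σ.1 ∧ τ.2.2 = σ.2.2)
    (hexc : ∀ x c σ τ, σ ∈ 𝒯 → τ ∈ 𝒯 → serves x c σ → serves x c τ → σ.2.1 ≠ τ.2.1 →
      σ.1 = τ.1 ∧ σ.2.2 = τ.2.2)
    (hout : ∀ τ ∈ 𝒯, ∃ t c, serves (Sum.inr t) c τ ∧
      ∀ σ ∈ 𝒯, serves (Sum.inr t) c σ → σ.1 = τ.1 → σ.2.2 = τ.2.2 → σ = τ) :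
    𝒯.card ≤ w ^ 2 * ∑ t, (reads t).card := by
  classical
  set Priv : (In ⊕ Fin s) → Fin w → (R × J × K) → Prop := fun x c τ =>
    ∀ σ ∈ 𝒯, serves x c σ → σ.1 = τ.1 → σ.2.2 = τ.2.2 → σ = τ with hPriv
  -- existence of a crossing wire
  have key : ∀ τ ∈ 𝒯, ∀ N : ℕ, ∀ t : Fin s, t.val = N → ∀ c, serves (Sum.inr t) c τ →
      Priv (Sum.inr t) c τ →
      ∃ (t' : Fin s) (y : In ⊕ Fin s) (d d' : Fin w), y ∈ reads t' ∧ serves (Sum.inr t') d τ ∧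
        Priv (Sum.inr t') d τ ∧ serves y d' τ ∧ ((∃ e, y = Sum.inl e) ∨ ¬ Priv y d' τ) := by
    intro τ hτ N
    induction N using Nat.strong_induction_on with
    | _ N ih =>
      intro t ht c h1 h2
      obtain ⟨y, hy, c', h3⟩ := hgate t c τ hτ h1
      by_cases hpr : Priv y c' τ
      · rcases y with e | u
        · exact ⟨t, Sum.inl e, c, c', hy, h1, h2, h3, Or.inl ⟨e, rfl⟩⟩
        · have hlt : u.val < N := ht ▸ earlier t u hy
          exact ih u.val hlt u rfl c' h3 hpr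
      · exact ⟨t, y, c, c', hy, h1, h2, h3, Or.inr hpr⟩
  have key2 : ∀ τ ∈ 𝒯, ∃ z : (Σ _ : Fin s, (In ⊕ Fin s)) × Fin w × Fin w,
      z.1.2 ∈ reads z.1.1 ∧ serves (Sum.inr z.1.1) z.2.1 τ ∧ Priv (Sum.inr z.1.1) z.2.1 τ ∧
      serves z.1.2 z.2.2 τ ∧ ((∃ e, z.1.2 = Sum.inl e) ∨ ¬ Priv z.1.2 z.2.2 τ) := by
    intro τ hτ
    obtain ⟨t, c, h1, h2⟩ := hout τ hτ
    obtain ⟨t', y, d, d', h3, h4, h5, h6, h7⟩ := key τ hτ t.val t rfl c h1 h2
    exact ⟨(⟨t', y⟩, d, d'), h3, h4, h5, h6, h7⟩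
  rcases 𝒯.eq_empty_or_nonempty with h0 | ⟨τ₀, hτ₀⟩
  · simp [h0]
  have : Nonempty ((Σ _ : Fin s, (In ⊕ Fin s)) × Fin w × Fin w) := ⟨(key2 τ₀ hτ₀).choose⟩
  choose! f hf using key2
  have hcard : 𝒯.card ≤
      ((Finset.univ.sigma fun t => reads t) ×ˢ ((Finset.univ : Finset (Fin w)) ×ˢ
        (Finset.univ : Finset (Fin w)))).card := by
    refine Finset.card_le_card_of_injOn f ?_ ?_
    · intro τ hτ
      have h := (hf τ hτ).1
      simp only [Finset.coe_product, Set.mem_prod, Finset.mem_coe, Finset.mem_sigma,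
        Finset.mem_univ, true_and, and_true]
      exact h
    · intro τ₁ h₁ τ₂ h₂ he
      have h₁ : τ₁ ∈ 𝒯 := h₁
      have h₂ : τ₂ ∈ 𝒯 := h₂
      obtain ⟨-, a1, a2, a3, a4⟩ := hf τ₁ h₁
      obtain ⟨-, b1, -, b3, -⟩ := hf τ₂ h₂
      rw [← he] at b1 b3
      have hik : τ₂.1 = τ₁.1 ∧ τ₂.2.2 = τ₁.2.2 := by
        rcases a4 with ⟨e, he'⟩ | hnp
        · rw [he'] at a3 b3
          exact hin e _ τ₂ τ₁ h₂ h₁ b3 a3
        · by_cases hj : τ₂.2.1 = τ₁.2.1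
          · simp only [hPriv, not_forall] at hnp
            obtain ⟨σ, hσ, s1, s2, s3, s4⟩ := hnp
            have hσj : σ.2.1 ≠ τ₂.2.1 := by
              intro h
              apply s4
              refine Prod.ext s2 (Prod.ext ?_ s3)
              rw [h, hj]
            obtain ⟨g1, g2⟩ := hexc _ _ σ τ₂ hσ h₂ s1 b3 hσj
            exact ⟨g1.symm.trans s2, g2.symm.trans s3⟩
          · exact hexc _ _ τ₂ τ₁ h₂ h₁ b3 a3 hj
      exact (a2 τ₂ h₂ b1 hik.1 hik.2).symm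
  refine hcard.trans (le_of_eq ?_)
  rw [Finset.card_product, Finset.card_product, Finset.card_sigma]
  simp only [Finset.card_univ, Fintype.card_fin]
  ring

end Pool.Agent.APM54
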