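import Mathlib

/-!
# MP_885423_lc: circuits of monotone operations with tests, for all-pairs shortest paths (APM54)

Definitions used in the statement of `Pool.Agent.Results.MP_885423_lc.MonotoneOperations.result`.
-/

set_option autoImplicit false

namespace Pool.Agent.APM54

open Finset

/-- total weight of the walk from `u` through the vertices of the list `l` (in this order) to `v` -/
def walkWeight {n : ℕ} (W : Fin n → Fin n → ℝ) : Fin n → List (Fin n) → Fin n → ℝ
  | u, [], v => W u v
  | u, x :: l, v => W u x + walkWeight W x l v

/-- shortest-path distance: `0` if `u = v`, otherwise the infimum of the weights of all walks from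
`u` to `v` (it is only used for positive weights, where it is the least weight of a path) -/
noncomputable def dist {n : ℕ} (W : Fin n → Fin n → ℝ) (u v : Fin n) : ℝ :=
  if u = v then 0 else ⨅ l : List (Fin n), walkWeight W u l v

/-- A circuit of monotone operations and tests on the `n * n` edge weights of a digraph with vertex
set `Fin n`. Every wire carries a vector of `w` real numbers. The nodes are the edges (inputs) and
the gates. A gate is a test or an operation. Operation `t` reads the finitely many nodes in
`reads t` (inputs and earlier gates), and each element of `reads t` is one wire. -/
structure Circuit (n w : ℕ) where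
  /-- number of gates -/
  size : ℕ
  /-- the gates which are tests -/
  tests : Finset (Fin size)
  /-- the nodes read by an operation -/
  reads : Fin size → Finset ((Fin n × Fin n) ⊕ Fin size)
  /-- a gate reads only inputs and earlier gates -/
  earlier : ∀ t u, Sum.inr u ∈ reads t → u < t
  /-- the function computed by a gate, of the vectors at all nodes (see `gate`) -/
  op : Fin size → (((Fin n × Fin n) ⊕ Fin size) → Fin w → ℝ) → Fin w → ℝ
  /-- an operation is nondecreasing (in every coordinate of every argument) in the vectors at the
  nodes which it reads, and depends on nothing else -/
  mono : ∀ t, t ∉ tests → ∀ x y, (∀ a ∈ reads t, x a ≤ y a) → op t x ≤ op t y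
  /-- a test gives the answer `0` or `1` (in all coordinates); it is an arbitrary function of the
  vectors at all inputs and all earlier gates -/
  bit : ∀ t, t ∈ tests → ∀ x, op t x = 0 ∨ op t x = 1
  /-- the node and the coordinate where the output for the pair `(u, v)` is found -/
  out : Fin n → Fin n → ((Fin n × Fin n) ⊕ Fin size) × Fin w

namespace Circuit

/-- the vector computed by gate `t` on the weights `W`: `op t` is applied to the vectors at the
inputs and at the earlier gates (and to `0` at the other gates); an input node carries its weight in
every coordinate -/
noncomputable def gate {n w : ℕ} (C : Circuit n w) (W : Fin n → Fin n → ℝ) (t : Fin C.size) :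
    Fin w → ℝ :=
  C.op t (fun a => match a with
    | Sum.inl e => fun _ => W e.1 e.2
    | Sum.inr u => if _h : u < t then gate C W u else 0)
termination_by t.val
decreasing_by exact _h

variable {n w : ℕ} (C : Circuit n w)

/-- the vector at a node on the weights `W` -/
noncomputable def node (W : Fin n → Fin n → ℝ) : ((Fin n × Fin n) ⊕ Fin C.size) → Fin w → ℝ
  | Sum.inl e => fun _ => W e.1 e.2
  | Sum.inr t => C.gate W t

/-- the output of the circuit for the pair `(u, v)` on the weights `W` -/
noncomputable def output (W : Fin n → Fin n → ℝ) (u v : Fin n) : ℝ :=
  C.node W (C.out u v).1 (C.out u v).2

/-- the number of wires into operations (the wires into tests are free) -/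
def numWires : ℕ := ∑ t ∈ univ \ C.tests, (C.reads t).card

/-- on the weights `W` the circuit computes all distances up to the factor `α` -/
def Correct (α : ℝ) (W : Fin n → Fin n → ℝ) : Prop :=
  ∀ u v, u ≠ v → dist W u v ≤ C.output W u v ∧ C.output W u v ≤ α * dist W u v

end Circuit

end Pool.Agent.APM54
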