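import Pool.Agent.APM54.Main

/-!
# APM54: choice of the parameters
-/

set_option autoImplicit false

namespace Pool.Agent.APM54

open Finset
open scoped Classical

theorem sum_ind_eq {q : ℕ} (i : Fin q) : ∑ i' : Fin q, ind (i = i') = 1 := by
  rw [Finset.sum_eq_single i]
  · simp [ind]
  · intro b _ hb
    simp [ind, Ne.symm hb]
  · simp

theorem nongen_count (q κ : ℕ) (hq : 1 ≤ q) :
    ∑ x : Fin q × Fin q × Fin κ, ∑ y : Fin q × Fin q × Fin κ,
      ind (¬ (x.1 ≠ y.1 ∧ x.2.1 ≠ y.2.1)) ≤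
      (2 / (q : ℝ)) * (Fintype.card (Fin q × Fin q × Fin κ) : ℝ) ^ 2 := by
  have hqpos : (0 : ℝ) < q := by exact_mod_cast hq
  have h1 : ∀ i : Fin q, ∑ y : Fin q × Fin q × Fin κ, ind (i = y.1) = (q : ℝ) * κ := by
    intro i
    rw [Fintype.sum_prod_type]
    have : ∀ i' : Fin q, ∑ y : Fin q × Fin κ, ind (i = i') = ind (i = i') * ((q : ℝ) * κ) := by
      intro i'
      rw [Finset.sum_const, nsmul_eq_mul, Finset.card_univ, Fintype.card_prod, Fintype.card_fin,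
        Fintype.card_fin]
      push_cast
      ring
    rw [Finset.sum_congr rfl fun i' _ => this i', ← Finset.sum_mul]
    rw [sum_ind_eq, one_mul]
  have h2 : ∀ j : Fin q, ∑ y : Fin q × Fin q × Fin κ, ind (j = y.2.1) = (q : ℝ) * κ := by
    intro j
    rw [Fintype.sum_prod_type]
    have h3 : ∑ y : Fin q × Fin κ, ind (j = y.1) = (κ : ℝ) := by
      rw [Fintype.sum_prod_type]
      have : ∀ j' : Fin q, ∑ _k : Fin κ, ind (j = j') = ind (j = j') * (κ : ℝ) := by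
        intro j'
        rw [Finset.sum_const, nsmul_eq_mul, Finset.card_univ, Fintype.card_fin]
        ring
      rw [Finset.sum_congr rfl fun j' _ => this j', ← Finset.sum_mul]
      rw [sum_ind_eq, one_mul]
    have h4 : ∀ i : Fin q, ∑ y : Fin q × Fin κ, ind (j = ((i, y) : Fin q × Fin q × Fin κ).2.1) =
        (κ : ℝ) := fun _ => h3
    rw [Finset.sum_congr rfl fun i _ => h4 i, Finset.sum_const, nsmul_eq_mul, Finset.card_univ,
      Fintype.card_fin]
  have hpt : ∀ x y : Fin q × Fin q × Fin κ, ind (¬ (x.1 ≠ y.1 ∧ x.2.1 ≠ y.2.1)) ≤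
      ind (x.1 = y.1) + ind (x.2.1 = y.2.1) := by
    intro x y
    unfold ind
    by_cases h1 : x.1 = y.1 <;> by_cases h2 : x.2.1 = y.2.1 <;> simp [h1, h2]
  have h3 : ∀ x : Fin q × Fin q × Fin κ, ∑ y : Fin q × Fin q × Fin κ,
      ind (¬ (x.1 ≠ y.1 ∧ x.2.1 ≠ y.2.1)) ≤ 2 * ((q : ℝ) * κ) := by
    intro x
    calc ∑ y : Fin q × Fin q × Fin κ, ind (¬ (x.1 ≠ y.1 ∧ x.2.1 ≠ y.2.1))
        ≤ ∑ y : Fin q × Fin q × Fin κ, (ind (x.1 = y.1) + ind (x.2.1 = y.2.1)) :=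
          Finset.sum_le_sum fun y _ => hpt x y
      _ = 2 * ((q : ℝ) * κ) := by
          rw [Finset.sum_add_distrib, h1, h2]
          ring
  have h4 : (Fintype.card (Fin q × Fin q × Fin κ) : ℝ) = (q : ℝ) * (q * κ) := by
    rw [Fintype.card_prod, Fintype.card_prod, Fintype.card_fin, Fintype.card_fin]
    push_cast
    ring
  calc ∑ x : Fin q × Fin q × Fin κ, ∑ y : Fin q × Fin q × Fin κ,
        ind (¬ (x.1 ≠ y.1 ∧ x.2.1 ≠ y.2.1))
      ≤ ∑ _x : Fin q × Fin q × Fin κ, 2 * ((q : ℝ) * κ) := Finset.sum_le_sum fun x _ => h3 x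
    _ = (Fintype.card (Fin q × Fin q × Fin κ) : ℝ) * (2 * ((q : ℝ) * κ)) := by
        rw [Finset.sum_const, nsmul_eq_mul, Finset.card_univ]
    _ = (2 / (q : ℝ)) * (Fintype.card (Fin q × Fin q × Fin κ) : ℝ) ^ 2 := by
        rw [h4]
        field_simp

theorem final (n w D : ℕ) (hD : 1 ≤ D) (hn : 200 * D ^ 6 ≤ n) (α L : ℝ) (hα : 1 ≤ α)
    (hL : 2 * α < L) {ι : Type} [Fintype ι] (C : ι → MonoCircuit n w) (p : ι → ℝ)
    (hp : ∀ c, 0 ≤ p c) (hp1 : ∑ c, p c = 1)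
    (hC : ∀ W : Fin n → Fin n → ℝ, (∀ u v, W u v = 1 ∨ W u v = L) →
      (1 : ℝ) / D ≤ ∑ c, p c * ind ((C c).Correct α W)) :
    (n : ℝ) ^ 3 ≤ 1000 * D ^ 6 * w ^ 2 * ∑ c, p c * (C c).numWires := by
  -- parameters
  obtain ⟨T, hT⟩ : ∃ T, T + 1 = 2 * D := ⟨2 * D - 1, by omega⟩
  set q := n / (6 * D) with hq
  set κ := n / 3 with hκ
  have hD6 : D ≤ D ^ 6 := by
    calc D = D ^ 1 := (pow_one D).symm
      _ ≤ D ^ 6 := Nat.pow_le_pow_right hD (by norm_num)
  have hq1 : 33 * D ^ 5 ≤ q := by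
    rw [hq, Nat.le_div_iff_mul_le (by omega)]
    calc 33 * D ^ 5 * (6 * D) = 198 * D ^ 6 := by ring
      _ ≤ 200 * D ^ 6 := Nat.mul_le_mul_right _ (by norm_num)
      _ ≤ n := hn
  have hD5 : 1 ≤ D ^ 5 := Nat.one_le_pow _ _ hD
  have hqpos : 1 ≤ q := by omega
  have hDle : 200 * D ≤ n := (Nat.mul_le_mul_left 200 hD6).trans hn
  have hκ2 : 2 ≤ κ := by omega
  have hqn : 6 * D * q ≤ n := Nat.mul_div_le n (6 * D)
  have hqn' : n < 6 * D * q + 6 * D := by
    have := Nat.lt_mul_div_succ n (show 0 < 6 * D by omega)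
    rw [← hq] at this
    calc n < 6 * D * (q + 1) := this
      _ = _ := by ring
  have hκn : 3 * κ ≤ n := by omega
  have hκn' : n ≤ 3 * κ + 2 := by omega
  -- embedding
  have hcard : Fintype.card ((Fin T × Fin q) ⊕ Fin κ ⊕ (Fin T × Fin q)) ≤
      Fintype.card (Fin n) := by
    simp only [Fintype.card_sum, Fintype.card_prod, Fintype.card_fin]
    have h1 : 3 * (T * q) ≤ n := by
      calc 3 * (T * q) ≤ 3 * ((2 * D) * q) := by
            apply Nat.mul_le_mul_left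
            apply Nat.mul_le_mul_right
            omega
        _ = 6 * D * q := by ring
        _ ≤ n := hqn
    omega
  obtain ⟨e⟩ := Function.Embedding.nonempty_of_card_le hcard
  have : Nonempty (Fin q × Fin q × Fin κ) := ⟨(⟨0, by omega⟩, ⟨0, by omega⟩, ⟨0, by omega⟩)⟩
  set K : ℝ := (Fintype.card (Fin q × Fin q × Fin κ) : ℝ) with hK
  have hKval : K = (q : ℝ) * (q * κ) := by
    rw [hK, Fintype.card_prod, Fintype.card_prod, Fintype.card_fin, Fintype.card_fin]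
    push_cast
    ring
  -- reals
  have hDr : (1 : ℝ) ≤ D := by exact_mod_cast hD
  have hDpos : (0 : ℝ) < D := by linarith
  have hqr : 33 * (D : ℝ) ^ 5 ≤ q := by exact_mod_cast hq1
  have hqrpos : (0 : ℝ) < q := by exact_mod_cast hqpos
  have hTr : (T : ℝ) ≤ 2 * D := by
    have : T ≤ 2 * D := by omega
    exact_mod_cast this
  have hTβ : (T : ℝ) * (2 / q) ≤ 1 / (8 * (D : ℝ) ^ 4) := by
    have h1 : (T : ℝ) * (2 / q) ≤ 2 * D * (2 / q) :=
      mul_le_mul_of_nonneg_right hTr (by positivity)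
    refine h1.trans ?_
    rw [mul_div_assoc', div_le_div_iff₀ hqrpos (by positivity)]
    have h2 : 2 * (D : ℝ) * 2 * (8 * (D : ℝ) ^ 4) = 32 * (D : ℝ) ^ 5 := by ring
    rw [h2]
    have h3 : (0 : ℝ) ≤ (D : ℝ) ^ 5 := by positivity
    linarith
  have hhalf : 1 / (4 * (D : ℝ) ^ 4) = 1 / (8 * (D : ℝ) ^ 4) + 1 / (8 * (D : ℝ) ^ 4) := by
    field_simp
    ring
  have h8pos : 0 < 1 / (8 * (D : ℝ) ^ 4) := by positivity
  have hpos : 0 < 1 / (4 * (D : ℝ) ^ 4) - T * (2 / q) := by linarith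
  obtain ⟨a, b, hab, hbT, x, η, η', hgen, hbound⟩ := count (Θ := Fin q × Fin q × Fin κ) hD hT p hp
    hp1 (fun c a θ => (C c).Correct α (wt e L (wA a θ) (wB a θ)))
    (fun a _ θ => hC _ fun u v => wt_mem e L u v)
    (fun x y => x.1 ≠ y.1 ∧ x.2.1 ≠ y.2.1) (2 / q) (nongen_count q κ hqpos) hpos
  have hcirc : ∀ c, ∑ τ : Fin q × Fin q × Fin κ,
      ind ((C c).Correct α (wt e L (wA a (word a b x η τ)) (wB a (word a b x η τ))) ∧
        (C c).Correct α (wt e L (wA b (word a b x η' τ)) (wB b (word a b x η' τ)))) ≤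
      (w : ℝ) ^ 2 * (C c).numWires := by
    intro c
    rw [sum_ind]
    have h := circuit_bound e (C c) hα hL hκ2 hab hbT x η η' hgen
      (Finset.univ.filter fun τ : Fin q × Fin q × Fin κ =>
        (C c).Correct α (wt e L (wA a (word a b x η τ)) (wB a (word a b x η τ))) ∧
        (C c).Correct α (wt e L (wA b (word a b x η' τ)) (wB b (word a b x η' τ))))
      (fun τ hτ => (Finset.mem_filter.1 hτ).2)
    have h' : ((Finset.univ.filter fun τ : Fin q × Fin q × Fin κ =>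
        (C c).Correct α (wt e L (wA a (word a b x η τ)) (wB a (word a b x η τ))) ∧
        (C c).Correct α (wt e L (wA b (word a b x η' τ)) (wB b (word a b x η' τ)))).card : ℝ) ≤
        (w : ℝ) ^ 2 * (C c).numWires := by exact_mod_cast h
    refine le_trans (le_of_eq ?_) h'
    congr!
  have hfin : K * (1 / (8 * (D : ℝ) ^ 4)) ≤ (w : ℝ) ^ 2 * ∑ c, p c * (C c).numWires := by
    calc K * (1 / (8 * (D : ℝ) ^ 4)) ≤ K * (1 / (4 * (D : ℝ) ^ 4) - T * (2 / q)) := by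
          apply mul_le_mul_of_nonneg_left _ (by rw [hKval]; positivity)
          linarith
      _ ≤ _ := hbound
      _ ≤ ∑ c, p c * ((w : ℝ) ^ 2 * (C c).numWires) :=
          Finset.sum_le_sum fun c _ => mul_le_mul_of_nonneg_left (hcirc c) (hp c)
      _ = _ := by
          rw [Finset.mul_sum]
          exact Finset.sum_congr rfl fun c _ => by ring
  -- arithmetic
  have hnr : (200 : ℝ) * D ≤ n := by exact_mod_cast hDle
  have hq' : (n : ℝ) - 6 * D ≤ 6 * D * q := by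
    have : (n : ℝ) ≤ 6 * D * q + 6 * D := by exact_mod_cast hqn'.le
    linarith
  have hκ' : (n : ℝ) - 2 ≤ 3 * κ := by
    have : (n : ℝ) ≤ 3 * κ + 2 := by exact_mod_cast hκn'
    linarith
  have hn97 : (97 / 100 : ℝ) * n ≤ 6 * D * q := by linarith
  have hn99 : (99 / 100 : ℝ) * n ≤ 3 * κ := by linarith
  have hnpos : (0 : ℝ) ≤ n := by positivity
  have hKbig : (n : ℝ) ^ 3 ≤ 125 * D ^ 2 * K := by
    have h1 : ((97 / 100 : ℝ) * n) ^ 2 ≤ (6 * D * q) ^ 2 := pow_le_pow_left₀ (by positivity) hn97 2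
    have h2 : ((97 / 100 : ℝ) * n) ^ 2 * ((99 / 100 : ℝ) * n) ≤ (6 * D * q) ^ 2 * (3 * κ) :=
      mul_le_mul h1 hn99 (by positivity) (by positivity)
    have h3 : (6 * (D : ℝ) * q) ^ 2 * (3 * κ) = 108 * (D ^ 2 * K) := by
      rw [hKval]
      ring
    have h4 : (0 : ℝ) ≤ (n : ℝ) ^ 3 := by positivity
    nlinarith
  calc (n : ℝ) ^ 3 ≤ 125 * D ^ 2 * K := hKbig
    _ = 1000 * D ^ 6 * (K * (1 / (8 * (D : ℝ) ^ 4))) := by
        field_simp
        ring
    _ ≤ 1000 * D ^ 6 * ((w : ℝ) ^ 2 * ∑ c, p c * (C c).numWires) :=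
        mul_le_mul_of_nonneg_left hfin (by positivity)
    _ = _ := by ring

end Pool.Agent.APM54
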