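import Pool.Agent.APM54.Defs

/-!
# APM54: weightings from a pair of Boolean matrices, and their distances
-/

set_option autoImplicit false

namespace Pool.Agent.APM54

open Finset
open scoped Classical

theorem walkWeight_nonneg {n : ℕ} {W : Fin n → Fin n → ℝ} (h : ∀ u v, 0 ≤ W u v) (u : Fin n)
    (l : List (Fin n)) (v : Fin n) : 0 ≤ walkWeight W u l v := by
  induction l generalizing u with
  | nil => exact h u v
  | cons x l ih => exact add_nonneg (h u x) (ih x)

/-- a walk leaving a set all of whose outgoing edges have weight at least `L` -/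
theorem le_walkWeight {n : ℕ} {W : Fin n → Fin n → ℝ} (h : ∀ u v, 0 ≤ W u v) {L : ℝ}
    (Z : Set (Fin n)) (hZ : ∀ u ∈ Z, ∀ v, v ∉ Z → L ≤ W u v) (u : Fin n) (hu : u ∈ Z)
    (l : List (Fin n)) (v : Fin n) (hv : v ∉ Z) : L ≤ walkWeight W u l v := by
  induction l generalizing u with
  | nil => exact hZ u hu v hv
  | cons x l ih =>
    by_cases hx : x ∈ Z
    · exact (ih x hx).trans (le_add_of_nonneg_left (h u x))
    · exact (hZ u hu x hx).trans (le_add_of_nonneg_right (walkWeight_nonneg h x l v))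

theorem le_dist {n : ℕ} {W : Fin n → Fin n → ℝ} (h : ∀ u v, 0 ≤ W u v) {L : ℝ}
    (Z : Set (Fin n)) (hZ : ∀ u ∈ Z, ∀ v, v ∉ Z → L ≤ W u v) (u : Fin n) (hu : u ∈ Z)
    (v : Fin n) (hv : v ∉ Z) : L ≤ dist W u v := by
  have huv : u ≠ v := fun e => hv (e ▸ hu)
  unfold dist
  rw [if_neg huv]
  exact le_ciInf fun l => le_walkWeight h Z hZ u hu l v hv

theorem dist_le_walkWeight {n : ℕ} {W : Fin n → Fin n → ℝ} (h : ∀ u v, 0 ≤ W u v) {u v : Fin n}
    (huv : u ≠ v) (l : List (Fin n)) : dist W u v ≤ walkWeight W u l v := by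
  unfold dist
  rw [if_neg huv]
  refine ciInf_le ⟨0, ?_⟩ l
  rintro _ ⟨l', rfl⟩
  exact walkWeight_nonneg h u l' v

section wt

variable {n : ℕ} {R K J : Type} (ι : (R ⊕ K ⊕ J) ↪ Fin n) (L : ℝ)

/-- the vertex of a row -/
def row (r : R) : Fin n := ι (Sum.inl r)
/-- the vertex of a middle index -/
def mid (k : K) : Fin n := ι (Sum.inr (Sum.inl k))
/-- the vertex of a column -/
def col (s : J) : Fin n := ι (Sum.inr (Sum.inr s))

variable {ι}

theorem row_inj {r r' : R} : row ι r = row ι r' ↔ r = r' := by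
  simp [row]
theorem mid_inj {k k' : K} : mid ι k = mid ι k' ↔ k = k' := by
  simp [mid]
theorem col_inj {s s' : J} : col ι s = col ι s' ↔ s = s' := by
  simp [col]
theorem row_ne_mid (r : R) (k : K) : row ι r ≠ mid ι k := by
  simp [row, mid]
theorem row_ne_col (r : R) (s : J) : row ι r ≠ col ι s := by
  simp [row, col]
theorem mid_ne_col (k : K) (s : J) : mid ι k ≠ col ι s := by
  simp [mid, col]

variable (ι)

/-- short edges: from a row to a middle vertex and from a middle vertex to a column, as given by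
two relations -/
def Short (A : R → K → Prop) (B : K → J → Prop) (u v : Fin n) : Prop :=
  (∃ r k, row ι r = u ∧ mid ι k = v ∧ A r k) ∨ (∃ k s, mid ι k = u ∧ col ι s = v ∧ B k s)

/-- weight `1` on short edges, `L` elsewhere -/
noncomputable def wt (A : R → K → Prop) (B : K → J → Prop) (u v : Fin n) : ℝ :=
  if Short ι A B u v then 1 else L

variable {A A' : R → K → Prop} {B B' : K → J → Prop}

theorem wt_mem (u v : Fin n) : wt ι L A B u v = 1 ∨ wt ι L A B u v = L := by
  unfold wt
  split <;> simp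

theorem wt_nonneg (hL : 1 ≤ L) (u v : Fin n) : 0 ≤ wt ι L A B u v := by
  rcases wt_mem ι L (A := A) (B := B) u v with h | h <;> rw [h] <;> linarith

theorem one_le_wt (hL : 1 ≤ L) (u v : Fin n) : 1 ≤ wt ι L A B u v := by
  rcases wt_mem ι L (A := A) (B := B) u v with h | h <;> rw [h]
  exact hL

theorem short_mono (hA : ∀ r k, A r k → A' r k) (hB : ∀ k s, B k s → B' k s) {u v : Fin n}
    (h : Short ι A B u v) : Short ι A' B' u v := by
  rcases h with ⟨r, k, h1, h2, h3⟩ | ⟨k, s, h1, h2, h3⟩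
  · exact Or.inl ⟨r, k, h1, h2, hA r k h3⟩
  · exact Or.inr ⟨k, s, h1, h2, hB k s h3⟩

theorem wt_anti (hL : 1 ≤ L) (hA : ∀ r k, A r k → A' r k) (hB : ∀ k s, B k s → B' k s)
    (u v : Fin n) : wt ι L A' B' u v ≤ wt ι L A B u v := by
  unfold wt
  by_cases h : Short ι A B u v
  · rw [if_pos h, if_pos (short_mono ι hA hB h)]
  · rw [if_neg h]
    split
    · exact hL
    · exact le_rfl

/-- a two-edge short path -/
theorem dist_le_two (hL : 1 ≤ L) {r : R} {k : K} {s : J} (hA : A r k) (hB : B k s) :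
    dist (wt ι L A B) (row ι r) (col ι s) ≤ 2 := by
  refine (dist_le_walkWeight (wt_nonneg ι L hL) (row_ne_col r s) [mid ι k]).trans (le_of_eq ?_)
  have h1 : wt ι L A B (row ι r) (mid ι k) = 1 := by
    have h0 : Short ι A B (row ι r) (mid ι k) := Or.inl ⟨r, k, rfl, rfl, hA⟩
    unfold wt
    rw [if_pos h0]
  have h2 : wt ι L A B (mid ι k) (col ι s) = 1 := by
    have h0 : Short ι A B (mid ι k) (col ι s) := Or.inr ⟨k, s, rfl, rfl, hB⟩
    unfold wt
    rw [if_pos h0]
  simp only [walkWeight, h1, h2]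
  norm_num

/-- no two-edge short path -/
theorem le_dist_of_not (hL : 1 ≤ L) {r : R} {s : J} (h : ∀ k, ¬ (A r k ∧ B k s)) :
    L ≤ dist (wt ι L A B) (row ι r) (col ι s) := by
  refine le_dist (wt_nonneg ι L hL)
    {x | x = row ι r ∨ (∃ k, A r k ∧ x = mid ι k) ∨ ∃ s', s' ≠ s ∧ x = col ι s'} ?_ _ ?_ _ ?_
  · rintro u hu v hv
    simp only [Set.mem_ofPred_eq, not_or, not_exists, not_and] at hv
    obtain ⟨hv1, hv2, hv3⟩ := hv
    have hns : ¬ Short ι A B u v := by
      rintro (⟨r', k, h1, h2, h3⟩ | ⟨k, s', h1, h2, h3⟩)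
      · rcases hu with hu | ⟨k', -, hu⟩ | ⟨s', -, hu⟩
        · rw [← h1, row_inj] at hu
          subst hu
          exact hv2 k h3 h2.symm
        · rw [← h1] at hu
          exact row_ne_mid _ _ hu
        · rw [← h1] at hu
          exact row_ne_col _ _ hu
      · rcases hu with hu | ⟨k', hk', hu⟩ | ⟨s'', -, hu⟩
        · rw [← h1] at hu
          exact row_ne_mid _ _ hu.symm
        · rw [← h1, mid_inj] at hu
          subst hu
          by_cases hs : s' = s
          · subst hs
            exact h k ⟨hk', h3⟩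
          · exact hv3 s' hs h2.symm
        · rw [← h1] at hu
          exact mid_ne_col _ _ hu
    unfold wt
    rw [if_neg hns]
  · exact Or.inl rfl
  · rintro (h1 | ⟨k, -, h1⟩ | ⟨s', hs', h1⟩)
    · exact row_ne_col _ _ h1.symm
    · exact mid_ne_col _ _ h1.symm
    · rw [col_inj] at h1
      exact hs' h1.symm

/-- the distance from a row to a column is at least `2` -/
theorem two_le_dist (hL : 2 ≤ L) (r : R) (s : J) :
    2 ≤ dist (wt ι L A B) (row ι r) (col ι s) := by
  unfold dist
  rw [if_neg (row_ne_col r s)]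
  refine le_ciInf fun l => ?_
  have hns : wt ι L A B (row ι r) (col ι s) = L := by
    unfold wt
    rw [if_neg]
    rintro (⟨r', k, h1, h2, h3⟩ | ⟨k, s', h1, h2, h3⟩)
    · exact mid_ne_col _ _ h2
    · exact row_ne_mid _ _ h1.symm
  rcases l with _ | ⟨x, l⟩
  · simp only [walkWeight, hns]
    exact hL
  · have h1 : (1 : ℝ) ≤ wt ι L A B (row ι r) x := one_le_wt ι L (by linarith) _ _
    have h2 : (1 : ℝ) ≤ walkWeight (wt ι L A B) x l (col ι s) := by
      rcases l with _ | ⟨y, l⟩
      · exact one_le_wt ι L (by linarith) _ _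
      · have h3 : (1 : ℝ) ≤ wt ι L A B x y := one_le_wt ι L (by linarith) _ _
        have h4 := walkWeight_nonneg (wt_nonneg ι L (A := A) (B := B) (by linarith)) y l (col ι s)
        simp only [walkWeight]
        linarith
    simp only [walkWeight]
    linarith

end wt

end Pool.Agent.APM54
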