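import Pool.Agent.APM54.Defs

/-!
# APM54: circuits without tests (only used in the proof)
-/

set_option autoImplicit false

namespace Pool.Agent.APM54

open Finset

/-- circuits without tests -/
structure MonoCircuit (n w : ℕ) where
  size : ℕ
  reads : Fin size → Finset ((Fin n × Fin n) ⊕ Fin size)
  earlier : ∀ t u, Sum.inr u ∈ reads t → u < t
  op : Fin size → (((Fin n × Fin n) ⊕ Fin size) → Fin w → ℝ) → Fin w → ℝ
  mono : ∀ t x y, (∀ a ∈ reads t, x a ≤ y a) → op t x ≤ op t y
  out : Fin n → Fin n → ((Fin n × Fin n) ⊕ Fin size) × Fin w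

namespace MonoCircuit

/-- the vector computed by a gate -/
noncomputable def gate {n w : ℕ} (C : MonoCircuit n w) (W : Fin n → Fin n → ℝ) (t : Fin C.size) :
    Fin w → ℝ :=
  C.op t (fun a => match a with
    | Sum.inl e => fun _ => W e.1 e.2
    | Sum.inr u => if _h : u < t then gate C W u else 0)
termination_by t.val
decreasing_by exact _h

variable {n w : ℕ} (C : MonoCircuit n w)

/-- the vector at a node -/
noncomputable def node (W : Fin n → Fin n → ℝ) : ((Fin n × Fin n) ⊕ Fin C.size) → Fin w → ℝ
  | Sum.inl e => fun _ => W e.1 e.2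
  | Sum.inr t => C.gate W t

/-- the output -/
noncomputable def output (W : Fin n → Fin n → ℝ) (u v : Fin n) : ℝ :=
  C.node W (C.out u v).1 (C.out u v).2

/-- the number of wires -/
def numWires : ℕ := ∑ t, (C.reads t).card

/-- all outputs are right up to the factor `α` -/
def Correct (α : ℝ) (W : Fin n → Fin n → ℝ) : Prop :=
  ∀ u v, u ≠ v → dist W u v ≤ C.output W u v ∧ C.output W u v ≤ α * dist W u v

end MonoCircuit

end Pool.Agent.APM54
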