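import Pool.Agent.APM54.Graph
import Pool.Agent.APM54.Mono
import Pool.Agent.APM54.Core
import Pool.Agent.APM54.Count

/-!
# APM54: the lower bound
-/

set_option autoImplicit false

namespace Pool.Agent.APM54

open Finset
open scoped Classical

/-! ## MonoCircuits are monotone -/

theorem MonoCircuit.gate_le {n w : ℕ} (C : MonoCircuit n w) {W W' : Fin n → Fin n → ℝ} (t : Fin C.size)
    (h : ∀ y ∈ C.reads t, C.node W y ≤ C.node W' y) : C.gate W t ≤ C.gate W' t := by
  rw [MonoCircuit.gate, MonoCircuit.gate]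
  apply C.mono
  intro y hy
  rcases y with e | u
  · exact h _ hy
  · have hu : u < t := C.earlier t u hy
    simp only [hu, dite_true]
    exact h _ hy

theorem MonoCircuit.node_mono {n w : ℕ} (C : MonoCircuit n w) {W W' : Fin n → Fin n → ℝ}
    (h : ∀ u v, W u v ≤ W' u v) (y : (Fin n × Fin n) ⊕ Fin C.size) : C.node W y ≤ C.node W' y := by
  have key : ∀ N : ℕ, ∀ t : Fin C.size, t.val = N → C.gate W t ≤ C.gate W' t := by
    intro N
    induction N using Nat.strong_induction_on with
    | _ N ih =>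
      intro t ht
      apply C.gate_le
      intro y hy
      rcases y with e | u
      · intro c
        exact h _ _
      · have hu : u < t := C.earlier t u hy
        exact ih u.val (ht ▸ hu) u rfl
  rcases y with e | t
  · intro c
    exact h _ _
  · exact key t.val t rfl

/-! ## The words -/

section words

variable {T q κ : ℕ}

/-- rows: in the blocks before level `a` everything is short except one entry, in the other blocks
only one entry is short -/
def wA (a : ℕ) (θ : Fin T → Fin q × Fin q × Fin κ) (r : Fin T × Fin q) (k : Fin κ) : Prop :=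
  if r.1.val < a then ¬ (r.2 = (θ r.1).1 ∧ k = (θ r.1).2.2)
  else (r.2 = (θ r.1).1 ∧ k = (θ r.1).2.2)

/-- columns -/
def wB (a : ℕ) (θ : Fin T → Fin q × Fin q × Fin κ) (k : Fin κ) (s : Fin T × Fin q) : Prop :=
  if s.1.val < a then (s.2 = (θ s.1).2.1 → k = (θ s.1).2.2)
  else (s.2 = (θ s.1).2.1 ∧ k = (θ s.1).2.2)

variable {a b : ℕ} {x η η' : Fin T → Fin q × Fin q × Fin κ} {σ τ : Fin q × Fin q × Fin κ}

theorem wA_low {t₀ : Fin T} (h0 : t₀.val = a) (i : Fin q) (k : Fin κ) :
    wA a (word a b x η τ) (t₀, i) k ↔ (i = τ.1 ∧ k = τ.2.2) := by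
  have hw : word a b x η τ t₀ = τ := by
    unfold word
    rw [if_pos h0]
  unfold wA
  simp only [hw]
  rw [if_neg (by omega)]

theorem wB_low {t₀ : Fin T} (h0 : t₀.val = a) (j : Fin q) (k : Fin κ) :
    wB a (word a b x η τ) k (t₀, j) ↔ (j = τ.2.1 ∧ k = τ.2.2) := by
  have hw : word a b x η τ t₀ = τ := by
    unfold word
    rw [if_pos h0]
  unfold wB
  simp only [hw]
  rw [if_neg (by omega)]

theorem wA_high {t₀ : Fin T} (h0 : t₀.val = a) (hab : a < b) (i : Fin q) (k : Fin κ) :
    wA b (word a b x η τ) (t₀, i) k ↔ ¬ (i = τ.1 ∧ k = τ.2.2) := by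
  have hw : word a b x η τ t₀ = τ := by
    unfold word
    rw [if_pos h0]
  unfold wA
  simp only [hw]
  rw [if_pos (by omega)]

theorem wB_high {t₀ : Fin T} (h0 : t₀.val = a) (hab : a < b) (j : Fin q) (k : Fin κ) :
    wB b (word a b x η τ) k (t₀, j) ↔ (j = τ.2.1 → k = τ.2.2) := by
  have hw : word a b x η τ t₀ = τ := by
    unfold word
    rw [if_pos h0]
  unfold wB
  simp only [hw]
  rw [if_pos (by omega)]

theorem wA_other (hab : a < b)
    (hgen : ∀ t : Fin T, a < t.val → t.val < b → (η t).1 ≠ (η' t).1 ∧ (η t).2.1 ≠ (η' t).2.1)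
    {t : Fin T} (ht : t.val ≠ a) (i : Fin q) (k : Fin κ)
    (h : wA a (word a b x η σ) (t, i) k) : wA b (word a b x η' τ) (t, i) k := by
  unfold wA word at *
  simp only [if_neg ht] at *
  by_cases h1 : t.val < a
  · rw [if_pos h1, if_neg (by omega)] at h
    rw [if_pos (by omega), if_neg (by omega)]
    exact h
  · rw [if_neg h1] at h
    by_cases h2 : t.val < b
    · rw [if_pos (by omega)] at h
      rw [if_pos h2, if_pos (by omega)]
      rintro ⟨h3, -⟩
      exact (hgen t (by omega) h2).1 (h.1.symm.trans h3)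
    · rw [if_neg (by omega)] at h
      rw [if_neg h2, if_neg (by omega)]
      exact h

theorem wB_other (hab : a < b)
    (hgen : ∀ t : Fin T, a < t.val → t.val < b → (η t).1 ≠ (η' t).1 ∧ (η t).2.1 ≠ (η' t).2.1)
    {t : Fin T} (ht : t.val ≠ a) (j : Fin q) (k : Fin κ)
    (h : wB a (word a b x η σ) k (t, j)) : wB b (word a b x η' τ) k (t, j) := by
  unfold wB word at *
  simp only [if_neg ht] at *
  by_cases h1 : t.val < a
  · rw [if_pos h1, if_neg (by omega)] at h
    rw [if_pos (by omega), if_neg (by omega)]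
    exact h
  · rw [if_neg h1] at h
    by_cases h2 : t.val < b
    · rw [if_pos (by omega)] at h
      rw [if_pos h2, if_pos (by omega)]
      intro h3
      exact absurd (h.1.symm.trans h3) (hgen t (by omega) h2).2
    · rw [if_neg (by omega)] at h
      rw [if_neg h2, if_neg (by omega)]
      exact h

end words

/-! ## One circuit -/

theorem circuit_bound {n w T q κ : ℕ} (ι : ((Fin T × Fin q) ⊕ Fin κ ⊕ (Fin T × Fin q)) ↪ Fin n)
    (C : MonoCircuit n w) {α L : ℝ} (hα : 1 ≤ α) (hL : 2 * α < L) (hκ : 2 ≤ κ) {a b : ℕ} (hab : a < b)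
    (hbT : b ≤ T) (x η η' : Fin T → Fin q × Fin q × Fin κ)
    (hgen : ∀ t : Fin T, a < t.val → t.val < b → (η t).1 ≠ (η' t).1 ∧ (η t).2.1 ≠ (η' t).2.1)
    (𝒯 : Finset (Fin q × Fin q × Fin κ))
    (h𝒯 : ∀ τ ∈ 𝒯,
      C.Correct α (wt ι L (wA a (word a b x η τ)) (wB a (word a b x η τ))) ∧
      C.Correct α (wt ι L (wA b (word a b x η' τ)) (wB b (word a b x η' τ)))) :
    𝒯.card ≤ w ^ 2 * C.numWires := by
  have hL1 : 1 ≤ L := by linarith
  have hL2 : 2 ≤ L := by linarith
  set WP : (Fin q × Fin q × Fin κ) → Fin n → Fin n → ℝ := fun τ =>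
    wt ι L (wA a (word a b x η τ)) (wB a (word a b x η τ)) with hWP
  set WQ : (Fin q × Fin q × Fin κ) → Fin n → Fin n → ℝ := fun τ =>
    wt ι L (wA b (word a b x η' τ)) (wB b (word a b x η' τ)) with hWQ
  let t₀ : Fin T := ⟨a, by omega⟩
  have ht₀ : t₀.val = a := rfl
  -- comparison
  have hcmp : ∀ σ τ : Fin q × Fin q × Fin κ, σ.2.1 ≠ τ.2.1 → ¬ (σ.1 = τ.1 ∧ σ.2.2 = τ.2.2) →
      ∀ u v, WQ τ u v ≤ WP σ u v := by
    intro σ τ hj hik
    refine wt_anti ι L hL1 ?_ ?_
    · rintro ⟨t, i⟩ k h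
      by_cases ht : t.val = a
      · have ht' : t = t₀ := Fin.ext ht
        subst ht'
        rw [wA_low ht₀] at h
        rw [wA_high ht₀ hab]
        rintro ⟨h1, h2⟩
        exact hik ⟨h.1.symm.trans h1, h.2.symm.trans h2⟩
      · exact wA_other hab hgen ht i k h
    · rintro k ⟨t, j⟩ h
      by_cases ht : t.val = a
      · have ht' : t = t₀ := Fin.ext ht
        subst ht'
        rw [wB_low ht₀] at h
        rw [wB_high ht₀ hab]
        intro h1
        exact absurd (h.1.symm.trans h1) hj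
      · exact wB_other hab hgen ht j k h
  -- inputs
  have hinput : ∀ (e : Fin n × Fin n) (τ : Fin q × Fin q × Fin κ),
      WP τ e.1 e.2 < WQ τ e.1 e.2 →
      row ι (t₀, τ.1) = e.1 ∧ mid ι τ.2.2 = e.2 ∧ WP τ e.1 e.2 = 1 := by
    intro e τ hlt
    have hP : Short ι (wA a (word a b x η τ)) (wB a (word a b x η τ)) e.1 e.2 := by
      by_contra hP
      have h1 : WP τ e.1 e.2 = L := by
        simp only [hWP, wt]
        rw [if_neg hP]
      rw [h1] at hlt
      rcases wt_mem ι L (A := wA b (word a b x η' τ)) (B := wB b (word a b x η' τ)) e.1 e.2 with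
        h2 | h2
      · have h3 : WQ τ e.1 e.2 = 1 := h2
        rw [h3] at hlt
        linarith
      · have h3 : WQ τ e.1 e.2 = L := h2
        rw [h3] at hlt
        linarith
    have hP1 : WP τ e.1 e.2 = 1 := by
      simp only [hWP, wt]
      rw [if_pos hP]
    have hQ : ¬ Short ι (wA b (word a b x η' τ)) (wB b (word a b x η' τ)) e.1 e.2 := by
      intro hQ
      have h1 : WQ τ e.1 e.2 = 1 := by
        simp only [hWQ, wt]
        rw [if_pos hQ]
      rw [h1, hP1] at hlt
      exact lt_irrefl _ hlt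
    rcases hP with ⟨⟨t, i⟩, k, h1, h2, h3⟩ | ⟨k, ⟨t, j⟩, h1, h2, h3⟩
    · by_cases ht : t.val = a
      · have ht' : t = t₀ := Fin.ext ht
        subst ht'
        rw [wA_low ht₀] at h3
        obtain ⟨h4, h5⟩ := h3
        subst h4
        subst h5
        exact ⟨h1, h2, hP1⟩
      · exact absurd (Or.inl ⟨(t, i), k, h1, h2, wA_other hab hgen ht i k h3⟩) hQ
    · exfalso
      by_cases ht : t.val = a
      · have ht' : t = t₀ := Fin.ext ht
        subst ht'
        rw [wB_low ht₀] at h3
        refine hQ (Or.inr ⟨k, (t₀, j), h1, h2, ?_⟩)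
        rw [wB_high ht₀ hab]
        exact fun _ => h3.2
      · exact hQ (Or.inr ⟨k, (t, j), h1, h2, wB_other hab hgen ht j k h3⟩)
  refine core C.reads C.earlier 𝒯
    (fun y c τ => C.node (WP τ) y c < C.node (WQ τ) y c) ?_ ?_ ?_ ?_
  · -- gates
    intro t c τ _ hs
    by_contra hcon
    push Not at hcon
    have := C.gate_le (W := WQ τ) (W' := WP τ) t (fun y hy c' => hcon y hy c')
    exact absurd hs (not_lt.2 (this c))
  · -- inputs
    intro e c τ σ _ _ h1 h2
    obtain ⟨a1, a2, -⟩ := hinput e τ h1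
    obtain ⟨b1, b2, -⟩ := hinput e σ h2
    have c1 := row_inj.1 (a1.trans b1.symm)
    have c2 := mid_inj.1 (a2.trans b2.symm)
    exact ⟨(Prod.ext_iff.1 c1).2, c2⟩
  · -- exclusion
    intro y c σ τ _ _ h1 h2 hj
    by_contra hik
    have e1 := C.node_mono (hcmp σ τ hj hik) y c
    have e2 := C.node_mono (hcmp τ σ (Ne.symm hj) (fun h => hik ⟨h.1.symm, h.2.symm⟩)) y c
    exact absurd (h1.trans_le (e2.trans (h2.le.trans e1))) (lt_irrefl _)
  · -- outputs
    intro τ hτ
    obtain ⟨hcP, hcQ⟩ := h𝒯 τ hτ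
    set u := row ι (t₀, τ.1) with hu
    set v := col ι (t₀, τ.2.1) with hv
    have huv : u ≠ v := row_ne_col _ _
    have hserve : C.node (WP τ) (C.out u v).1 (C.out u v).2 <
        C.node (WQ τ) (C.out u v).1 (C.out u v).2 := by
      have h1 := (hcP u v huv).2
      have h2 := (hcQ u v huv).1
      have h3 : dist (WP τ) u v ≤ 2 :=
        dist_le_two ι L hL1 (k := τ.2.2) ((wA_low ht₀ _ _).2 ⟨rfl, rfl⟩)
          ((wB_low ht₀ _ _).2 ⟨rfl, rfl⟩)
      have h4 : L ≤ dist (WQ τ) u v := by
        refine le_dist_of_not ι L hL1 ?_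
        rintro k ⟨h5, h6⟩
        rw [wA_high ht₀ hab] at h5
        rw [wB_high ht₀ hab] at h6
        exact h5 ⟨rfl, h6 rfl⟩
      have h5 : α * dist (WP τ) u v ≤ α * 2 := mul_le_mul_of_nonneg_left h3 (by linarith)
      calc C.node (WP τ) (C.out u v).1 (C.out u v).2 ≤ α * dist (WP τ) u v := h1
        _ ≤ α * 2 := h5
        _ < L := by linarith
        _ ≤ dist (WQ τ) u v := h4
        _ ≤ _ := h2
    obtain ⟨y, c⟩ : ∃ z : ((Fin n × Fin n) ⊕ Fin C.size) × Fin w, z = C.out u v := ⟨_, rfl⟩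
    rcases hout : (C.out u v).1 with e | t
    · exfalso
      have hs : C.node (WP τ) (Sum.inl e) (C.out u v).2 <
          C.node (WQ τ) (Sum.inl e) (C.out u v).2 := by
        rw [← hout]
        exact hserve
      obtain ⟨-, -, h1⟩ := hinput e τ hs
      have h2 := (hcP u v huv).1
      have h3 : (2 : ℝ) ≤ dist (WP τ) u v := two_le_dist ι L hL2 _ _
      have h4 : C.output (WP τ) u v = 1 := by
        show C.node (WP τ) (C.out u v).1 (C.out u v).2 = 1
        rw [hout]
        exact h1
      have h5 : dist (WP τ) u v ≤ C.output (WP τ) u v := h2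
      rw [h4] at h5
      linarith
    · refine ⟨t, (C.out u v).2, ?_, ?_⟩
      · rw [← hout]
        exact hserve
      · intro σ hσ hs h1 h2
        by_contra hne
        have hj : σ.2.1 ≠ τ.2.1 := fun h3 => hne (Prod.ext h1 (Prod.ext h3 h2))
        obtain ⟨hsP, hsQ⟩ := h𝒯 σ hσ
        have g1 := (hsP u v huv).1
        have g2 := (hsQ u v huv).2
        have g3 : L ≤ dist (WP σ) u v := by
          refine le_dist_of_not ι L hL1 ?_
          rintro k ⟨-, h6⟩
          rw [wB_low ht₀] at h6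
          exact hj h6.1.symm
        have g4 : dist (WQ σ) u v ≤ 2 := by
          obtain ⟨k, hk⟩ : ∃ k : Fin κ, k ≠ σ.2.2 := by
            have : Nontrivial (Fin κ) := Fin.nontrivial_iff_two_le.2 hκ
            exact exists_ne _
          refine dist_le_two ι L hL1 (k := k) ?_ ?_
          · rw [wA_high ht₀ hab]
            exact fun h => hk h.2
          · rw [wB_high ht₀ hab]
            exact fun h => absurd h.symm hj
        have g5 : C.node (WP σ) (Sum.inr t) (C.out u v).2 <
            C.node (WQ σ) (Sum.inr t) (C.out u v).2 := hs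
        rw [← hout] at g5
        have g6 : α * dist (WQ σ) u v ≤ α * 2 := mul_le_mul_of_nonneg_left g4 (by linarith)
        have g7 : C.output (WP σ) u v < C.output (WQ σ) u v := g5
        linarith

end Pool.Agent.APM54
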