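import Pool.Agent.APM54.Final

/-!
# APM54: guessing the answers of the tests
-/

set_option autoImplicit false

namespace Pool.Agent.APM54

open Finset
open scoped Classical

namespace Circuit

variable {n w : ℕ} (C : Circuit n w)

/-- the answers of the tests are replaced by the guesses `s` -/
noncomputable def guess (s : C.tests → Bool) : MonoCircuit n w where
  size := C.size
  reads t := if t ∈ C.tests then ∅ else C.reads t
  earlier t u h := by
    by_cases ht : t ∈ C.tests
    · rw [if_pos ht] at h
      simp at h
    · rw [if_neg ht] at h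
      exact C.earlier t u h
  op t x := if h : t ∈ C.tests then (if s ⟨t, h⟩ = true then 1 else 0) else C.op t x
  mono t x y hxy := by
    by_cases ht : t ∈ C.tests
    · simp only [ht, dite_true]
      exact le_rfl
    · simp only [ht, dite_false]
      rw [if_neg ht] at hxy
      exact C.mono t ht x y hxy
  out := C.out

theorem guess_numWires (s : C.tests → Bool) : (C.guess s).numWires = C.numWires := by
  unfold MonoCircuit.numWires Circuit.numWires
  show ∑ t : Fin C.size, (if t ∈ C.tests then (∅ : Finset ((Fin n × Fin n) ⊕ Fin C.size))
    else C.reads t).card = _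
  rw [← Finset.sum_subset (Finset.subset_univ (univ \ C.tests))]
  · refine Finset.sum_congr rfl fun t ht => ?_
    rw [if_neg (Finset.mem_sdiff.1 ht).2]
  · intro t _ ht
    have ht' : t ∈ C.tests := by
      by_contra h
      exact ht (Finset.mem_sdiff.2 ⟨Finset.mem_univ t, h⟩)
    rw [if_pos ht', Finset.card_empty]

/-- the right guesses -/
noncomputable def answers (W : Fin n → Fin n → ℝ) : C.tests → Bool :=
  fun t => decide (C.gate W t.1 = 1)

theorem guess_gate (W : Fin n → Fin n → ℝ) (t : Fin C.size) :
    (C.guess (C.answers W)).gate W t = C.gate W t := by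
  have key : ∀ N : ℕ, ∀ t : Fin C.size, t.val = N →
      (C.guess (C.answers W)).gate W t = C.gate W t := by
    intro N
    induction N using Nat.strong_induction_on with
    | _ N ih =>
      intro t ht
      refine (MonoCircuit.gate.eq_def (C.guess (C.answers W)) W t).trans ?_
      show (if h : t ∈ C.tests then (if C.answers W ⟨t, h⟩ = true then (1 : Fin w → ℝ) else 0)
        else C.op t _) = _
      by_cases h : t ∈ C.tests
      · rw [dif_pos h]
        unfold answers
        by_cases h1 : C.gate W t = 1
        · rw [if_pos (by simpa using h1), h1]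
        · rw [if_neg (by simpa using h1)]
          have h2 : C.gate W t = 0 ∨ C.gate W t = 1 := by
            rw [Circuit.gate]
            exact C.bit t h _
          rcases h2 with h2 | h2
          · exact h2.symm
          · exact absurd h2 h1
      · rw [dif_neg h]
        conv_rhs => rw [Circuit.gate]
        congr 1
        funext a
        change ((Fin n × Fin n) ⊕ Fin C.size) at a
        rcases a with e | u
        · rfl
        · by_cases hu : u < t
          · have h3 := ih u.val (ht ▸ hu) u rfl
            have e1 : (if _h : u < t then (C.guess (C.answers W)).gate W u else 0) =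
              (C.guess (C.answers W)).gate W u := dif_pos hu
            have e2 : (if _h : u < t then C.gate W u else 0) = C.gate W u := dif_pos hu
            exact e1.trans (h3.trans e2.symm)
          · have e1 : (if _h : u < t then (C.guess (C.answers W)).gate W u else 0) = 0 :=
              dif_neg hu
            have e2 : (if _h : u < t then C.gate W u else 0) = 0 := dif_neg hu
            exact e1.trans e2.symm
  exact key t.val t rfl

theorem guess_output (W : Fin n → Fin n → ℝ) (u v : Fin n) :
    (C.guess (C.answers W)).output W u v = C.output W u v := by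
  unfold MonoCircuit.output Circuit.output
  show (C.guess (C.answers W)).node W (C.out u v).1 (C.out u v).2 = _
  rcases (C.out u v).1 with e | t
  · rfl
  · show (C.guess (C.answers W)).gate W t _ = C.gate W t _
    rw [guess_gate]

theorem guess_correct {α : ℝ} {W : Fin n → Fin n → ℝ} (h : C.Correct α W) :
    (C.guess (C.answers W)).Correct α W := by
  intro u v huv
  rw [guess_output]
  exact h u v huv

end Circuit

theorem final_tests (n w r D : ℕ) (hD : 1 ≤ D) (hn : 200 * (2 ^ r * D) ^ 6 ≤ n) (α L : ℝ)
    (hα : 1 ≤ α) (hL : 2 * α < L) {ι : Type} [Fintype ι] (C : ι → Circuit n w) (p : ι → ℝ)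
    (hp : ∀ c, 0 ≤ p c) (hp1 : ∑ c, p c = 1) (hr : ∀ c, (C c).tests.card ≤ r)
    (hC : ∀ W : Fin n → Fin n → ℝ, (∀ u v, W u v = 1 ∨ W u v = L) →
      (1 : ℝ) / D ≤ ∑ c ∈ Finset.univ.filter (fun c => (C c).Correct α W), p c) :
    (n : ℝ) ^ 3 ≤ 1000 * (2 ^ r * D) ^ 6 * w ^ 2 * ∑ c, p c * (C c).numWires := by
  have h2r : (0 : ℝ) < 2 ^ r := by positivity
  have hDpos : (0 : ℝ) < D := by exact_mod_cast hD
  -- the number of guesses
  have hG : ∀ c, (Fintype.card ((C c).tests → Bool) : ℝ) = 2 ^ (C c).tests.card := by
    intro c
    rw [Fintype.card_fun, Fintype.card_bool, Fintype.card_coe]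
    push_cast
    rfl
  have hGpos : ∀ c, (0 : ℝ) < 2 ^ (C c).tests.card := fun c => by positivity
  have hGle : ∀ c, (2 : ℝ) ^ (C c).tests.card ≤ 2 ^ r := fun c =>
    pow_le_pow_right₀ (by norm_num) (hr c)
  have key := final n w (2 ^ r * D) (Nat.mul_pos (by positivity) hD) hn α L hα hL
    (ι := Σ c, ((C c).tests → Bool)) (fun z => (C z.1).guess z.2)
    (fun z => p z.1 / 2 ^ (C z.1).tests.card) (fun z => div_nonneg (hp _) (hGpos _).le)
    (by
      rw [Fintype.sum_sigma]
      refine Eq.trans (Finset.sum_congr rfl fun c _ => ?_) hp1
      show ∑ _s : ((C c).tests → Bool), p c / 2 ^ (C c).tests.card = p c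
      rw [Finset.sum_const, nsmul_eq_mul, Finset.card_univ, hG]
      field_simp)
    (by
      intro W hW
      rw [Fintype.sum_sigma]
      have h1 := hC W hW
      have h2 : ∑ c ∈ Finset.univ.filter (fun c => (C c).Correct α W), p c =
          ∑ c, p c * ind ((C c).Correct α W) := by
        rw [Finset.sum_filter]
        refine Finset.sum_congr rfl fun c _ => ?_
        unfold ind
        split <;> simp
      rw [h2] at h1
      have h3 : ∀ c, p c * ind ((C c).Correct α W) / 2 ^ r ≤
          ∑ s : ((C c).tests → Bool), p c / 2 ^ (C c).tests.card *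
            ind (((C c).guess s).Correct α W) := by
        intro c
        by_cases hc : (C c).Correct α W
        · have h4 : p c * ind ((C c).Correct α W) / 2 ^ r ≤ p c / 2 ^ (C c).tests.card *
              ind (((C c).guess ((C c).answers W)).Correct α W) := by
            unfold ind
            rw [if_pos hc, if_pos ((C c).guess_correct hc), mul_one, mul_one]
            exact div_le_div_of_nonneg_left (hp c) (hGpos c) (hGle c)
          refine h4.trans ?_
          exact Finset.single_le_sum (f := fun s : ((C c).tests → Bool) =>
            p c / 2 ^ (C c).tests.card * ind (((C c).guess s).Correct α W))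
            (fun s _ => mul_nonneg (div_nonneg (hp c) (hGpos c).le) (ind_nonneg _))
            (Finset.mem_univ _)
        · have h4 : ind ((C c).Correct α W) = 0 := by
            unfold ind
            rw [if_neg hc]
          rw [h4, mul_zero, zero_div]
          exact Finset.sum_nonneg fun s _ =>
            mul_nonneg (div_nonneg (hp c) (hGpos c).le) (ind_nonneg _)
      have h5 : (1 : ℝ) / ((2 ^ r * D : ℕ) : ℝ) = (1 / D) / 2 ^ r := by
        push_cast
        field_simp
      rw [h5]
      calc (1 / (D : ℝ)) / 2 ^ r ≤ (∑ c, p c * ind ((C c).Correct α W)) / 2 ^ r :=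
            div_le_div_of_nonneg_right h1 h2r.le
        _ = ∑ c, p c * ind ((C c).Correct α W) / 2 ^ r := by rw [Finset.sum_div]
        _ ≤ _ := Finset.sum_le_sum fun c _ => h3 c)
  push_cast at key
  refine key.trans (le_of_eq ?_)
  congr 1
  rw [Fintype.sum_sigma]
  refine Finset.sum_congr rfl fun c _ => ?_
  have h6 : ∀ s : ((C c).tests → Bool),
      p c / 2 ^ (C c).tests.card * (((C c).guess s).numWires : ℝ) =
      p c / 2 ^ (C c).tests.card * ((C c).numWires : ℝ) := by
    intro s
    rw [Circuit.guess_numWires]
  show ∑ s : ((C c).tests → Bool),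
      p c / 2 ^ (C c).tests.card * (((C c).guess s).numWires : ℝ) = _
  rw [Finset.sum_congr rfl fun s _ => h6 s, Finset.sum_const, nsmul_eq_mul, Finset.card_univ, hG]
  field_simp

end Pool.Agent.APM54
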